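import Pool.Agent.Q23.LD.Three

/-!
# Quadratic residuosity of the determinants with entries `(j + k / p) + (j - k / p) ± (j^2 ± k^2 / p)`

Modulo `p` the matrix is `V C V^T` with the Vandermonde matrix `V` of the numbers `j^2` and a triangular
(up to the order of the rows) matrix `C` with the entries `± binom(n, b)`, `n = (p - 1) / 2`, on the
diagonal, and the product of the Legendre symbols of these binomial coefficients is that of `n!`.
-/

set_option autoImplicit false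

namespace Pool.Agent.Results.MP_f57d9c_nt.QuadraticResidue

/-- The determinant of the matrix with the entries `(j + k / p) + (j - k / p) + δ₁ (j^2 + δ₂ k^2 / p)`,
`0 ≤ j, k ≤ (p - 1) / 2`. -/
def D (p : ℕ) [Fact p.Prime] (d1 d2 : ℤ) : ℤ :=
  Matrix.det (Matrix.of fun j k : Fin ((p + 1) / 2) =>
    legendreSym p (((j : ℕ) : ℤ) + ((k : ℕ) : ℤ)) + legendreSym p (((j : ℕ) : ℤ) - ((k : ℕ) : ℤ)) +
      d1 * legendreSym p (((j : ℕ) : ℤ) ^ 2 + d2 * ((k : ℕ) : ℤ) ^ 2))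

/-- **Main result.** -/
theorem result : ∀ (p : ℕ) [Fact p.Prime], p % 4 = 1 → ∀ d1 d2 : ℤ, (d1 = 1 ∨ d1 = -1) →
    (d2 = 1 ∨ d2 = -1) → ¬ (p : ℤ) ∣ 2 * D p d1 d2 ∧ ∃ y : ℤ, 2 * D p d1 d2 ≡ y ^ 2 [ZMOD p] := by
  intro p _ h4 d1 d2 hd1 hd2
  have hpp := (Fact.out : p.Prime)
  obtain ⟨h, hp⟩ : ∃ h, p = 4 * h + 1 := ⟨p / 4, by omega⟩
  have h0 : 0 < h := by
    rcases Nat.eq_zero_or_pos h with h1 | h1
    · exfalso
      rw [h1] at hp
      exact hpp.ne_one (by omega)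
    · exact h1
  have h1 : legendreSym p (2 * D p d1 d2) = 1 := Pool.Agent.Q23.LD.ch_det_M3 h0 hp d1 d2 hd1 hd2
  have h2 : ((2 * D p d1 d2 : ℤ) : ZMod p) ≠ 0 := by
    intro h3
    rw [(legendreSym.eq_zero_iff p _).2 h3] at h1
    norm_num at h1
  refine ⟨?_, ?_⟩
  · rwa [← ZMod.intCast_zmod_eq_zero_iff_dvd]
  · obtain ⟨y, hy⟩ := (legendreSym.eq_one_iff p h2).1 h1
    obtain ⟨z, rfl⟩ := ZMod.intCast_surjective y
    refine ⟨z, ?_⟩
    rw [← ZMod.intCast_eq_intCast_iff, hy]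
    push_cast
    ring

end Pool.Agent.Results.MP_f57d9c_nt.QuadraticResidue
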